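import Pool.Agent.Helper76.Dim.Main

set_option autoImplicit false

/-!
# An oracle relative to which NP has intermediate polynomial-time dimension

The machine model, `NP` relative to an oracle, gales, polynomial-time computability relative to an
oracle and the resulting dimension are defined in `Pool.Agent.Helper76.Dim.Defs`.

Idea of the proof. The oracle has three parts. The first part codes a hidden random language `R`
together with witnesses: the string `(x, y)` is in the oracle iff `x` is in `R` and `y` is the
random witness of length `|x|^2` of `x`. Hence `R` is in `NP`, and it looks random to all
polynomial-time machines. The second part is a table, which stores rational approximations of a
certain `s`-gale with `s = 1 - 2^(-10)`; the gale succeeds on all languages in `NP` relative to the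
oracle. It is the sum of martingales for infinitely many scales `t`, where the scale `t` is devoted
to one nondeterministic machine, and the strings of length `t` and `t + 1` are used. Either the
characteristic sequence of the language on the strings of length `t` (the key) has probability at
least `2^(-2^(t-1))`, and then the martingale of its distribution succeeds, or else the key unlocks
an advice, namely the characteristic sequence of the language on some `2^(t-7)` strings of length
`t + 1`. As the advice is short and can hardly be unlocked by chance, a union bound shows that
relative to the oracle no `s`-gale with `s < 1/4` computable in polynomial time succeeds on `R`.
-/

namespace Pool.Agent.Results.MP_e55146_lc.IntermediateDimension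

open Pool.Agent.Helper76.Dim

/-- There is an oracle relative to which the polynomial-time dimension of `NP` is strictly between
`0` and `1`. -/
theorem result : ∃ A : Set (List Bool), 0 < dimP A (NP A) ∧ dimP A (NP A) < 1 := by
  obtain ⟨A, h1, h2⟩ := exists_dim
  exact ⟨A, by linarith, by linarith⟩

end Pool.Agent.Results.MP_e55146_lc.IntermediateDimension
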